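import Pool.Agent.T2h11.Zah.Nt2

/-!
# The number of the conjugations on all classes together
-/

set_option autoImplicit false

open CategoryTheory Limits MonoidalCategory Module Filter Topology
open Pool.Agent.Y112.SR Pool.Agent.Y112.KD Pool.Agent.N64.AF
open scoped ENNReal TensorProduct

namespace Pool.Agent.T2h11.Zah

universe u v w t

section Sep

/-- Two different vectors are separated by a functional. -/
lemma exists_dual {K : Type w} [Field K] {V : Type w} [AddCommGroup V] [Module K V] {a b : V}
    (h : a ≠ b) : ∃ f : V →ₗ[K] K, f a ≠ f b := by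
  by_contra h1
  push Not at h1
  apply h
  rw [← sub_eq_zero, ← Module.forall_dual_apply_eq_zero_iff K]
  intro f
  rw [map_sub, sub_eq_zero]
  exact h1 f

end Sep

variable {C : Type u} [Category.{v} C] [Preadditive C] [MonoidalCategory C]
  [SymmetricCategory C]
  {Λ : Type t} [Field Λ] [Linear Λ C]
  {K : Type w} [Field K] [Algebra Λ K] {R : SuperRealisation C K}
  {K' : Type w} [Field K'] {R' : SuperRealisation C K'}

/-- A functional on the first factor. -/
noncomputable def conl {Y : C} (f : R'.H.obj Y →ₗ[K'] K') (Z : C) :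
    R'.H.obj (Y ⊗ Z) →ₗ[K'] R'.H.obj Z :=
  (TensorProduct.lid K' (R'.H.obj Z)).toLinearMap ∘ₗ
    TensorProduct.map f LinearMap.id ∘ₗ (Functor.OplaxMonoidal.δ R'.H Y Z).hom

lemma conl_mul {Y Z : C} (f : R'.H.obj Y →ₗ[K'] K') (y : R'.H.obj Y) (z : R'.H.obj Z) :
    conl f Z (mul R' y z) = f y • z := by
  change (TensorProduct.lid K' (R'.H.obj Z)) (TensorProduct.map f LinearMap.id
    ((Functor.OplaxMonoidal.δ R'.H Y Z).hom (mul R' y z))) = _
  rw [delta_mul, TensorProduct.map_tmul, TensorProduct.lid_tmul, LinearMap.id_apply]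

lemma one_ne (R' : SuperRealisation C K') : one R' ≠ 0 := by
  intro h
  have h1 := eta_one R'
  rw [h, map_zero] at h1
  exact zero_ne_one h1

variable {S : ∀ Z, Submodule Λ ((resF Λ R).obj Z)}

/-- Dedekind's lemma. -/
lemma dedekind [MonoidalPreadditive C] [RightRigidCategory C] {T : C} (hS : IsClasses R S) (s : Finset (Conj R R'))
    (hs : ∀ a ∈ s, ∀ b ∈ s, Conj.res S T a = Conj.res S T b → a = b) :
    ∀ c : Conj R R' → K', (∀ (n : ℕ) (x : S (tp T n)), ∑ i ∈ s, c i • Conj.res S T i n x = 0) →
      ∀ i ∈ s, c i = 0 := by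
  classical
  induction s using Finset.induction_on with
  | empty => intro c _ i hi; exact absurd hi (Finset.notMem_empty i)
  | insert a s has ih =>
    intro c hc
    have ih' := ih fun a ha b hb => hs a (Finset.mem_insert_of_mem ha) b (Finset.mem_insert_of_mem hb)
    have key : ∀ (m : ℕ) (u : S (tp T m)) (f : R'.H.obj (tp T m) →ₗ[K'] K'), ∀ i ∈ s,
        c i * (f (Conj.res S T i m u) - f (Conj.res S T a m u)) = 0 := by
      intro m u f
      refine ih' (fun i => c i * (f (Conj.res S T i m u) - f (Conj.res S T a m u))) ?_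
      intro n x
      obtain ⟨e, -⟩ := exists_tp_iso T m n
      -- the product
      have h1 : (R.H.map e.hom).hom (mul R u.1 x.1) ∈ S (tp T (m + n)) :=
        hS.map e.hom _ (hS.mul _ _ u.2 x.2)
      have h2 : ∀ i : Conj R R', conl f (tp T n) ((R'.H.map e.inv).hom
          (Conj.res S T i (m + n) ⟨_, h1⟩)) = f (Conj.res S T i m u) • Conj.res S T i n x := by
        intro i
        change conl f (tp T n) ((R'.H.map e.inv).hom (i.map (tp T (m + n))
          ((R.H.map e.hom).hom (mul R u.1 x.1)))) = _
        have h3 : (R'.H.map e.inv).hom (i.map (tp T (m + n))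
          ((R.H.map e.hom).hom (mul R u.1 x.1))) =
          i.map _ ((R.H.map e.inv).hom ((R.H.map e.hom).hom (mul R u.1 x.1))) :=
          (i.natural e.inv _).symm
        have h4 : (R.H.map e.inv).hom ((R.H.map e.hom).hom (mul R u.1 x.1)) = mul R u.1 x.1 := by
          have h8 : (R.H.map (e.hom ≫ e.inv)).hom (mul R u.1 x.1) = mul R u.1 x.1 := by
            rw [Iso.hom_inv_id, CategoryTheory.Functor.map_id]
            rfl
          rw [Functor.map_comp] at h8
          exact h8
        rw [h3, h4, i.map_mul, conl_mul]
        rfl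
      have h5 := congrArg (fun y => conl f (tp T n) ((R'.H.map e.inv).hom y))
        (hc (m + n) ⟨_, h1⟩)
      beta_reduce at h5
      rw [map_zero, map_zero, map_sum, map_sum] at h5
      simp only [map_smul, h2] at h5
      rw [Finset.sum_insert has] at h5
      have h6 := hc n x
      rw [Finset.sum_insert has] at h6
      have h7 : ∑ i ∈ s, (c i * (f (Conj.res S T i m u) - f (Conj.res S T a m u))) •
          Conj.res S T i n x = ∑ i ∈ s, c i • f (Conj.res S T i m u) • Conj.res S T i n x -
            f (Conj.res S T a m u) • ∑ i ∈ s, c i • Conj.res S T i n x := by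
        rw [Finset.smul_sum, ← Finset.sum_sub_distrib]
        refine Finset.sum_congr rfl fun i _ => ?_
        rw [smul_smul, smul_smul, ← sub_smul]
        congr 1
        ring
      rw [h7, eq_neg_of_add_eq_zero_right h5, eq_neg_of_add_eq_zero_right h6, smul_neg,
        smul_comm (c a) (f (Conj.res S T a m u)), sub_self]
    have h0 : ∀ i ∈ s, c i = 0 := by
      intro i hi
      have hne : Conj.res S T i ≠ Conj.res S T a := by
        intro h
        have h1 := hs i (Finset.mem_insert_of_mem hi) a (Finset.mem_insert_self a s) h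
        exact has (h1 ▸ hi)
      obtain ⟨m, hm⟩ := Function.ne_iff.1 hne
      obtain ⟨u, hu⟩ := Function.ne_iff.1 hm
      obtain ⟨f, hf⟩ := exists_dual (K := K') hu
      rcases mul_eq_zero.1 (key m u f i hi) with h1 | h1
      · exact h1
      · exact absurd (sub_eq_zero.1 h1) hf
    have ha : c a = 0 := by
      have h1 := hc 0 ⟨one R, hS.one⟩
      rw [Finset.sum_insert has, Finset.sum_eq_zero (fun i hi => by rw [h0 i hi, zero_smul]),
        add_zero] at h1
      have h2 : Conj.res S T a 0 ⟨one R, hS.one⟩ = one R' := a.map_one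
      rw [h2] at h1
      exact (smul_eq_zero.1 h1).resolve_right (one_ne R')
    intro i hi
    rcases Finset.mem_insert.1 hi with rfl | hi
    · exact ha
    · exact h0 i hi

/-- The restrictions of the conjugations are natural transformations. -/
lemma res_mem {T : C} (hS : IsStab (resF Λ R) S) (s : Conj R R') :
    Conj.res S T s ∈ NT (sub (resF Λ R) S hS) R' T :=
  ⟨fun n a b => s.map_add (tp T n) a.1 b.1, fun _ _ f v => s.natural f v.1⟩

/-- The number of the different restrictions is at most the dimension. -/
lemma encard_le [MonoidalPreadditive C] [RightRigidCategory C] {T : C} (hS : IsClasses R S) {N : ℕ}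
    (hN : Module.rank K' (NT (sub (resF Λ R) S hS.stab) R' T) ≤ N) :
    (Set.range fun s : Conj R R' => Conj.res S T s).encard ≤ N := by
  classical
  by_contra hlt
  rw [not_le] at hlt
  have h1 : ((N + 1 : ℕ) : ℕ∞) ≤ (Set.range fun s : Conj R R' => Conj.res S T s).encard := by
    have := Order.add_one_le_of_lt hlt
    exact_mod_cast this
  obtain ⟨A, hA, hAN⟩ := Set.exists_subset_encard_eq h1
  have hAfin : A.Finite := Set.finite_of_encard_eq_coe hAN
  have hch : ∀ y : A, ∃ s : Conj R R', Conj.res S T s = y.1 := fun y => hA y.2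
  choose g hg using hch
  have hginj : Function.Injective g := by
    intro a b hab
    apply Subtype.ext
    rw [← hg a, ← hg b, hab]
  have := hAfin.fintype
  have hind : LinearIndependent K' (fun y : A => (⟨Conj.res S T (g y), res_mem hS.stab (g y)⟩ :
      NT (sub (resF Λ R) S hS.stab) R' T)) := by
    rw [Fintype.linearIndependent_iff]
    intro c hc y
    let c' : Conj R R' → K' := fun s => if h : ∃ y : A, g y = s then c h.choose else 0
    have hc' : ∀ y : A, c' (g y) = c y := by
      intro y
      have h : ∃ y' : A, g y' = g y := ⟨y, rfl⟩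
      have h2 : c' (g y) = c h.choose := dif_pos h
      rw [h2]
      congr 1
      exact hginj h.choose_spec
    have h3 := dedekind (T := T) hS (Finset.univ.image g) (by
      intro a ha b hb hab
      obtain ⟨y, -, rfl⟩ := Finset.mem_image.1 ha
      obtain ⟨y', -, rfl⟩ := Finset.mem_image.1 hb
      rw [hg, hg] at hab
      rw [Subtype.ext hab]) c' (by
      intro n x
      rw [Finset.sum_image (fun a _ b _ hab => hginj hab)]
      have h4 := congrFun (congrFun (congrArg Subtype.val hc) n) x
      have h5 : (∑ y : A, c y • Conj.res S T (g y) n x : R'.H.obj (tp T n)) = 0 := by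
        refine Eq.trans ?_ h4
        rw [AddSubmonoidClass.coe_finsetSum, Finset.sum_apply, Finset.sum_apply]
        rfl
      rw [← h5]
      exact Finset.sum_congr rfl fun y _ => by rw [hc'])
    rw [← hc' y]
    exact h3 (g y) (Finset.mem_image_of_mem g (Finset.mem_univ y))
  have h6 := hind.cardinal_le_rank.trans hN
  have h7 : Fintype.card A ≤ N := by
    rw [Cardinal.mk_fintype] at h6
    exact_mod_cast h6
  have h8 : A.encard = (Fintype.card A : ℕ∞) := by
    rw [← Set.coe_fintypeCard]
  rw [h8] at hAN
  have h9 : Fintype.card A = N + 1 := by exact_mod_cast hAN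
  omega

end Pool.Agent.T2h11.Zah
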