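import Pool.Agent.N64.AF.M1

/-!
# Conjugates of classes

`R` is a symmetric monoidal functor from `C` to finite dimensional super vector spaces over `K`, for
example the cohomology, with complex coefficients, of the motives for absolute Hodge cycles over a
field `k`, given by an embedding of `k` into the complex numbers.
-/

set_option autoImplicit false

open CategoryTheory Limits MonoidalCategory Module Filter Topology
open Pool.Agent.Y112.SR Pool.Agent.Y112.KD Pool.Agent.N64.AF
open scoped ENNReal TensorProduct

namespace Pool.Agent.T2h11.Zah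

universe v u w t y

section

variable {C : Type u} [Category.{v} C] [Preadditive C] [MonoidalCategory C]
  [SymmetricCategory C]

/-- The unit vector of the realisation of the unit object. -/
def one {K : Type w} [Field K] (R : SuperRealisation C K) : R.H.obj (𝟙_ C) :=
  (Functor.LaxMonoidal.ε R.H).hom (1 : K)

/-- The exterior product of two vectors. -/
def mul {K : Type w} [Field K] (R : SuperRealisation C K) {Y Z : C} (x : R.H.obj Y)
    (y : R.H.obj Z) : R.H.obj (Y ⊗ Z) := (Functor.LaxMonoidal.μ R.H Y Z).hom (x ⊗ₜ[K] y)

/-- A conjugation: a family of additive maps (not necessarily linear, for example semilinear with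
respect to an automorphism of the field) between the values of two realisations which commutes with
all morphisms and with exterior products. For example the conjugation of de Rham classes by an
automorphism of the complex numbers, the comparison of Betti and étale cohomology, the action of a
Galois group or of a motivic Galois group. -/
structure Conj {K K' : Type w} [Field K] [Field K'] (R : SuperRealisation C K)
    (R' : SuperRealisation C K') where
  /-- the map -/
  map : ∀ Y : C, R.H.obj Y → R'.H.obj Y
  map_add : ∀ (Y : C) (x y : R.H.obj Y), map Y (x + y) = map Y x + map Y y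
  natural : ∀ {Y Z : C} (f : Y ⟶ Z) (x : R.H.obj Y),
    map Z ((R.H.map f).hom x) = (R'.H.map f).hom (map Y x)
  map_mul : ∀ (Y Z : C) (x : R.H.obj Y) (y : R.H.obj Z),
    map (Y ⊗ Z) (mul R x y) = mul R' (map Y x) (map Z y)
  map_one : map (𝟙_ C) (one R) = one R'

/-- The additive map of a conjugation. -/
def Conj.add {K K' : Type w} [Field K] [Field K'] {R : SuperRealisation C K}
    {R' : SuperRealisation C K'} (s : Conj R R') (Y : C) : R.H.obj Y →+ R'.H.obj Y :=
  AddMonoidHom.mk' (s.map Y) (s.map_add Y)

/-- The vector `x` comes from a morphism from the unit object. -/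
def FromMor {K : Type w} [Field K] (R : SuperRealisation C K) {Z : C} (x : R.H.obj Z) : Prop :=
  ∃ f : 𝟙_ C ⟶ Z, (R.H.map f).hom (one R) = x

/-- The vector `x` has only finitely many conjugates in every realisation. -/
def FinConj {K : Type w} [Field K] (R : SuperRealisation C K) {Y : C} (x : R.H.obj Y) : Prop :=
  ∀ (K' : Type w) [Field K'] [CharZero K'] (R' : SuperRealisation C K'),
    {y | ∃ s : Conj R R', s.map Y x = y}.Finite

/-- A group of conjugations of the realisation `R'`. -/
structure ConjAction {K : Type w} [Field K] (R : SuperRealisation C K) (G : Type y)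
    [Group G] where
  /-- the action of an element -/
  act : G → Conj R R
  act_one : ∀ (Y : C) (x : R.H.obj Y), (act 1).map Y x = x
  act_mul : ∀ (g h : G) (Y : C) (x : R.H.obj Y),
    (act (g * h)).map Y x = (act g).map Y ((act h).map Y x)

/-- The vector `x` is fixed by the group. -/
def ConjAction.Fixes {K : Type w} [Field K] {R : SuperRealisation C K} {G : Type y} [Group G]
    (a : ConjAction R G) {Y : C} (x : R.H.obj Y) : Prop := ∀ g, (a.act g).map Y x = x

/-- The group is connected in its action on `T ^ n`: a vector with finitely many images is fixed. -/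
def ConjAction.IsConnectedAt {K : Type w} [Field K] {R : SuperRealisation C K} {G : Type y}
    [Group G] (a : ConjAction R G) (Y : C) : Prop :=
  ∀ x : R.H.obj Y, (Set.range fun g => (a.act g).map Y x).Finite → a.Fixes x

/-- All conjugates of the vector `x` in other realisations are fixed by all connected groups of
conjugations. -/
def ConjFixed {K : Type w} [Field K] (R : SuperRealisation C K) {Y : C} (x : R.H.obj Y) : Prop :=
  ∀ (K' : Type w) [Field K'] [CharZero K'] (R' : SuperRealisation C K') (G : Type w) [Group G]
    (a : ConjAction R' G), a.IsConnectedAt Y → ∀ s : Conj R R', a.Fixes (s.map Y x)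

end

/-- The quotients `a n / c n` converge to `N`, a natural number or infinity. -/
def Ratio (a c : ℕ → ℕ∞) (N : ℕ∞) : Prop :=
  Tendsto (fun n => ((a n : ℕ∞) : ℝ≥0∞) / ((c n : ℕ∞) : ℝ≥0∞)) atTop (𝓝 (N : ℝ≥0∞))

section

variable {C : Type u} [Category.{v} C] [Preadditive C] [MonoidalCategory C]
  [SymmetricCategory C] {K : Type w} [Field K]

/-- The realisation, as a vector space over the field `Λ` of coefficients of `C`. -/
noncomputable abbrev resF (Λ : Type t) [Field Λ] [Algebra Λ K] (R : SuperRealisation C K) :
    C ⥤ ModuleCat.{w} Λ :=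
  R.H ⋙ ModuleCat.restrictScalars (algebraMap Λ K)

variable {Λ : Type t} [Field Λ] [Algebra Λ K] {R : SuperRealisation C K}

/-- A family `S` of subspaces (over `Λ`) of the values of the realisation is stable under all
morphisms and closed under exterior products, and contains the unit vector. For example: the
Hodge classes. -/
structure IsClasses (R : SuperRealisation C K) (S : ∀ Z, Submodule Λ ((resF Λ R).obj Z)) :
    Prop where
  map : ∀ {Y Z : C} (f : Y ⟶ Z) (x : R.H.obj Y), x ∈ S Y → (R.H.map f).hom x ∈ S Z
  mul : ∀ {Y Z : C} (x : R.H.obj Y) (y : R.H.obj Z), x ∈ S Y → y ∈ S Z → mul R x y ∈ S (Y ⊗ Z)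
  one : one R ∈ S (𝟙_ C)

/-- The dimension of the space of the classes in `T ^ n`. -/
noncomputable def ncl (S : ∀ Z, Submodule Λ ((resF Λ R).obj Z)) (T : C) (n : ℕ) : ℕ∞ :=
  dimE Λ (S (tp T n))

/-- The dimension of the space of the morphisms from the unit object to `T ^ n`. -/
noncomputable def ncom (Λ : Type t) [Field Λ] [Linear Λ C] (T : C) (n : ℕ) : ℕ∞ :=
  dimE Λ (𝟙_ C ⟶ tp T n)

/-- All vectors of `S` in the realisation of `T ^ n` come from morphisms. -/
def AllFromMor (S : ∀ Z, Submodule Λ ((resF Λ R).obj Z)) (T : C) (n : ℕ) : Prop :=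
  ∀ x : R.H.obj (tp T n), x ∈ S (tp T n) → FromMor R x

/-- All vectors of `S` in the realisation of `T ^ n` have finitely many conjugates, and these are
fixed by all connected groups. -/
def AllFinConj (S : ∀ Z, Submodule Λ ((resF Λ R).obj Z)) (T : C) (n : ℕ) : Prop :=
  ∀ x : R.H.obj (tp T n), x ∈ S (tp T n) → FinConj R x ∧ ConjFixed R x

/-- The system of the conjugates, for one conjugation, of all vectors of `S` in the realisations of
all tensor powers of `T`. -/
def Conj.res {K' : Type w} [Field K'] {R' : SuperRealisation C K'}
    (S : ∀ Z, Submodule Λ ((resF Λ R).obj Z)) (T : C) (s : Conj R R') (n : ℕ)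
    (x : S (tp T n)) : R'.H.obj (tp T n) := s.map (tp T n) x.1

/-- All vectors of `S` in the realisations of all tensor powers of `T` together have at most `N`
systems of conjugates, in every realisation in which `T` has the same dimension. -/
def AtMostConj (S : ∀ Z, Submodule Λ ((resF Λ R).obj Z)) (T : C) (N : ℕ∞) : Prop :=
  ∀ (K' : Type w) [Field K'] [CharZero K'] (R' : SuperRealisation C K'), bt R' T = bt R T →
    (Set.range fun s : Conj R R' => Conj.res S T s).encard ≤ N

/-- All vectors of `S` in the realisations of all tensor powers of `T` are obtained, by morphisms,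
from at most `N` vectors of `S` in the realisation of one tensor power. -/
def GenBy (S : ∀ Z, Submodule Λ ((resF Λ R).obj Z)) (T : C) (N : ℕ∞) : Prop :=
  ∃ (m l : ℕ) (z : Fin l → R.H.obj (tp T m)), (l : ℕ∞) ≤ N ∧ (∀ i, z i ∈ S (tp T m)) ∧
    ∀ (n : ℕ) (x : R.H.obj (tp T n)), x ∈ S (tp T n) →
      ∃ c : Fin l → (tp T m ⟶ tp T n), ∑ i, (R.H.map (c i)).hom (z i) = x

end

/-- The morphisms from the unit object to the tensor powers of `T` which are numerically trivial are
zero. -/
def NoNumTriv {C : Type u} [Category.{v} C] [Preadditive C] [MonoidalCategory C]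
    [MonoidalPreadditive C] [SymmetricCategory C] [RightRigidCategory C] (T : C) : Prop :=
  ∀ (n : ℕ) (f : 𝟙_ C ⟶ tp T n), NumTriv f → f = 0

end Pool.Agent.T2h11.Zah
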