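import Pool.Agent.T2h11.Zah.Ded

/-!
# The law for classes and their conjugates
-/

set_option autoImplicit false

open CategoryTheory Limits MonoidalCategory Module Filter Topology
open Pool.Agent.Y112.SR Pool.Agent.Y112.KD Pool.Agent.N64.AF
open scoped ENNReal TensorProduct

namespace Pool.Agent.T2h11.Zah

universe u v w t

variable {C : Type u} [Category.{v} C] [Preadditive C] [MonoidalCategory C]
  [MonoidalPreadditive C] [SymmetricCategory C] [RightRigidCategory C]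
  {Λ : Type t} [Field Λ] [CharZero Λ] [Linear Λ C] [MonoidalLinear Λ C]
  {K : Type w} [Field K] [IsAlgClosed K] [Algebra Λ K] {R : SuperRealisation C K}

/-- Combinations of the values of finitely many vectors. -/
lemma exists_comb' (hR : IsReal Λ R) {S : ∀ Z, Submodule Λ ((resF Λ R).obj Z)}
    (hS : IsStab (resF Λ R) S) {U Z : C} {l : ℕ} (z : Fin l → (sub (resF Λ R) S hS).obj U)
    (y : (sub (resF Λ R) S hS).obj Z)
    (hy : y ∈ Submodule.span Λ {y : (sub (resF Λ R) S hS).obj Z |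
      ∃ (i : Fin l) (c : U ⟶ Z), ((sub (resF Λ R) S hS).map c).hom (z i) = y}) :
    ∃ c : Fin l → (U ⟶ Z), ∑ i, (R.H.map (c i)).hom (z i).1 = y.1 := by
  classical
  induction hy using Submodule.span_induction with
  | mem y h =>
    obtain ⟨i, c, rfl⟩ := h
    refine ⟨fun k => if k = i then c else 0, ?_⟩
    rw [Finset.sum_eq_single i]
    · change (R.H.map (if i = i then c else 0)).hom (z i).1 = _
      rw [if_pos rfl]
      rfl
    · intro k _ hk
      beta_reduce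
      rw [if_neg hk, R.H.map_zero]
      rfl
    · intro h
      exact absurd (Finset.mem_univ _) h
  | zero => exact ⟨fun _ => 0, Finset.sum_eq_zero fun k _ => by rw [R.H.map_zero]; rfl⟩
  | add a b _ _ ha hb =>
    obtain ⟨c, hc⟩ := ha
    obtain ⟨d, hd⟩ := hb
    refine ⟨fun k => c k + d k, ?_⟩
    have h1 : ∑ k, (R.H.map (c k)).hom (z k).1 + ∑ k, (R.H.map (d k)).hom (z k).1 =
        a.1 + b.1 := congrArg₂ (· + ·) hc hd
    refine Eq.trans ?_ h1
    rw [← Finset.sum_add_distrib]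
    refine Finset.sum_congr rfl fun k _ => ?_
    rw [R.H.map_add]
    rfl
  | smul r a _ ha =>
    obtain ⟨c, hc⟩ := ha
    refine ⟨fun k => r • c k, ?_⟩
    have h1 : algebraMap Λ K r • ∑ k, (R.H.map (c k)).hom (z k).1 =
        algebraMap Λ K r • (show R.H.obj Z from a.1) := by rw [hc]
    refine Eq.trans ?_ h1
    rw [Finset.smul_sum]
    refine Finset.sum_congr rfl fun k _ => ?_
    rw [hR.lin]
    rfl

/-- **The law.** -/
theorem main_law {T : C} [ExactPairing T T] (h : IsPow Λ R T) (hss : NoNumTriv T)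
    (S : ∀ Z, Submodule Λ ((resF Λ R).obj Z)) (hS : IsClasses R S) :
    (∃ N : ℕ∞, Ratio (ncl S T) (ncom Λ T) N ∧ N ≠ 0 ∧ AtMostConj S T N ∧
      (N = 1 ↔ ∀ n, AllFromMor S T n) ∧
      (N ≠ ⊤ → GenBy S T N ∧ ∀ n, AllFinConj S T n)) ∧
    ∀ k m n : ℕ, Large R T k m n → 2 * ncl S T n < ((k + 2 : ℕ) : ℕ∞) * ncom Λ T n →
      AllFinConj S T m ∧ (k = 1 → AllFromMor S T m) := by
  have hR := h.real
  have := linear_of hR
  have hcom := ncom_eq hR hss
  obtain ⟨N, h1, h2, h3⟩ := law h (sub (resF Λ R) S hS.stab)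
  have hpos : ∀ n, (numRank Λ (tp T n) : ℝ≥0∞) ≠ 0 := fun n => by
    exact_mod_cast (numRank_mono h n).1.ne'
  have hrat : Ratio (ncl S T) (ncom Λ T) N := by
    refine h1.congr fun n => ?_
    rw [hcom n]
    rfl
  have hcrit : ∀ k m n : ℕ, Large R T k m n →
      2 * ncl S T n < ((k + 2 : ℕ) : ℕ∞) * ncom Λ T n →
      AllFinConj S T m ∧ (k = 1 → AllFromMor S T m) := fun k m n hn hlt =>
    criterion h hss hS hn hlt
  -- eventually the quotient is small
  have hev : ∀ k : ℕ, 2 * N < ((k + 2 : ℕ) : ℕ∞) → ∀ m : ℕ, ∃ n, Large R T k m n ∧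
      2 * ncl S T n < ((k + 2 : ℕ) : ℕ∞) * ncom Λ T n := by
    intro k hk m
    have h4 : Tendsto (fun n => 2 * (((dimE Λ ((sub (resF Λ R) S hS.stab).obj (tp T n)) : ℕ∞) :
        ℝ≥0∞) / numRank Λ (tp T n))) atTop (𝓝 (2 * (N : ℝ≥0∞))) :=
      ENNReal.Tendsto.const_mul h1 (Or.inr (by norm_num))
    have h5 : 2 * (N : ℝ≥0∞) < ((k + 2 : ℕ) : ℝ≥0∞) := by
      have h6 : ((2 * N : ℕ∞) : ℝ≥0∞) < (((k + 2 : ℕ) : ℕ∞) : ℝ≥0∞) := by exact_mod_cast hk
      rw [ENat.toENNReal_mul] at h6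
      simpa using h6
    obtain ⟨n, hn1, hn2⟩ := ((h4.eventually (gt_mem_nhds h5)).and
      (eventually_ge_atTop (128 * (k * m + 1) ^ 2 * bt R T ^ (2 * (k * m) + 6)))).exists
    refine ⟨n, hn2, ?_⟩
    have h6 : 2 * ((dimE Λ (S (tp T n)) : ℕ∞) : ℝ≥0∞) <
        ((k + 2 : ℕ) : ℝ≥0∞) * numRank Λ (tp T n) := by
      have h7 : 2 * ((dimE Λ (S (tp T n)) : ℕ∞) : ℝ≥0∞) / numRank Λ (tp T n) <
          ((k + 2 : ℕ) : ℝ≥0∞) := by
        rw [mul_div_assoc]
        exact hn1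
      rwa [ENNReal.div_lt_iff (Or.inl (hpos n)) (Or.inl (ENNReal.natCast_ne_top _))] at h7
    rw [hcom n, ncl]
    have h8 : ((2 * dimE Λ (S (tp T n)) : ℕ∞) : ℝ≥0∞) <
        ((((k + 2 : ℕ) : ℕ∞) * (numRank Λ (tp T n) : ℕ∞) : ℕ∞) : ℝ≥0∞) := by
      rw [ENat.toENNReal_mul, ENat.toENNReal_mul]
      simpa using h6
    exact_mod_cast h8
  have hfinN : ∀ N' : ℕ, N = N' → ∀ m, AllFinConj S T m := by
    intro N' hN' m
    obtain ⟨n, hn1, hn2⟩ := hev (2 * N') (by
      rw [hN']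
      exact_mod_cast (by omega : 2 * N' < 2 * N' + 2)) m
    exact (hcrit _ m n hn1 hn2).1
  -- the number of conjugates
  have hat : AtMostConj S T N := by
    intro K' _ _ R' hdim
    by_cases hN : N = ⊤
    · rw [hN]; exact le_top
    · obtain ⟨N', rfl⟩ := ENat.ne_top_iff_exists.1 hN
      have h4 : Tendsto (fun n => ((dimE Λ ((sub (resF Λ R) S hS.stab).obj (tp T n)) : ℕ∞) :
        ℝ≥0∞) / numRank Λ (tp T n)) atTop (𝓝 (N' : ℝ≥0∞)) := by
        have h5 : (((N' : ℕ) : ℕ∞) : ℝ≥0∞) = (N' : ℝ≥0∞) := by norm_num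
        rw [← h5]
        exact h1
      obtain ⟨h6, h7⟩ := isFin_of_lim h _ h4
      exact encard_le hS (rank_NT h hss hdim N' _ h6 h7)
  have hne : N ≠ 0 := by
    intro h0
    have h4 := h2.1 h0 0
    have h5 : (⟨one R, hS.one⟩ : S (tp T 0)) = 0 := @Subsingleton.elim _ h4 _ _
    exact one_ne R (congrArg Subtype.val h5)
  refine ⟨⟨N, hrat, hne, hat, ⟨?_, ?_⟩, fun hN => ⟨?_, ?_⟩⟩, hcrit⟩
  · intro hN m
    obtain ⟨n, hn1, hn2⟩ := hev 1 (by
      rw [hN]
      exact_mod_cast (by norm_num : 2 * 1 < 1 + 2)) m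
    exact (hcrit 1 m n hn1 hn2).2 rfl
  · intro hall
    have h4 : ∀ n, ncl S T n = ncom Λ T n := by
      intro n
      have h5 := fin_hom hR hss n
      have h6 : LinearMap.range (ev hR (tp T n)) = S (tp T n) := by
        apply le_antisymm
        · rintro _ ⟨f, rfl⟩
          exact hS.map f _ hS.one
        · intro x hx
          obtain ⟨f, hf⟩ := hall n x hx
          exact ⟨f, hf⟩
      have h7 : Module.Finite Λ (S (tp T n)) := by
        rw [← h6]
        infer_instance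
      rw [ncl, ncom, dimE_eq, dimE_eq, ← h6,
        LinearMap.finrank_range_of_inj (ev_inj hR hss n)]
    have h5 : Ratio (ncl S T) (ncom Λ T) 1 := by
      refine tendsto_const_nhds.congr fun n => ?_
      rw [h4 n, hcom n]
      symm
      refine (ENNReal.div_self ?_ ?_).trans ENat.toENNReal_one.symm
      · exact_mod_cast (numRank_mono h n).1.ne'
      · exact_mod_cast ENat.natCast_ne_top _
    have h6 : (N : ℝ≥0∞) = ((1 : ℕ∞) : ℝ≥0∞) := tendsto_nhds_unique hrat h5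
    exact_mod_cast h6
  · obtain ⟨-, m, l, z, hl, hz⟩ := h3 hN
    refine ⟨m, l, fun i => (z i).1, hl, fun i => (z i).2, fun n x hx => ?_⟩
    exact exists_comb' hR hS.stab z ⟨x, hx⟩ (hz n ⟨x, hx⟩)
  · obtain ⟨N', hN'⟩ := ENat.ne_top_iff_exists.1 hN
    exact hfinN N' hN'.symm

end Pool.Agent.T2h11.Zah
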