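import Pool.Agent.T2h11.Zah.Rate

/-!
# The number of classes and their conjugates
-/

set_option autoImplicit false

open CategoryTheory Limits MonoidalCategory Module Filter Topology
open Pool.Agent.Y112.SR Pool.Agent.Y112.KD Pool.Agent.N64.AF
open scoped ENNReal TensorProduct

namespace Pool.Agent.T2h11.Zah

universe u v w t

variable {C : Type u} [Category.{v} C] [Preadditive C] [MonoidalCategory C]
  [MonoidalPreadditive C] [SymmetricCategory C] [RightRigidCategory C]
  {Λ : Type t} [Field Λ] [CharZero Λ] [Linear Λ C] [MonoidalLinear Λ C]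
  {K : Type w} [Field K] [IsAlgClosed K] [Algebra Λ K] {R : SuperRealisation C K}

omit [IsAlgClosed K] in
lemma numTriv_of_map (hR : IsReal Λ R) {X Y : C} {f : X ⟶ Y} (hf : R.H.map f = 0) :
    NumTriv f := by
  intro g
  rw [tr_eq_zero_iff hR, Functor.map_comp, hf, zero_comp, zero_comp]
  exact map_zero _

omit [MonoidalPreadditive C] [RightRigidCategory C] [CharZero Λ] [MonoidalLinear Λ C]
  [IsAlgClosed K] in
/-- The evaluation of the morphisms from the unit object. -/
noncomputable def ev (hR : IsReal Λ R) (Z : C) : (𝟙_ C ⟶ Z) →ₗ[Λ] (resF Λ R).obj Z where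
  toFun f := (R.H.map f).hom (one R)
  map_add' f g := by rw [Functor.map_add]; rfl
  map_smul' c f := by rw [hR.lin]; rfl

omit [MonoidalPreadditive C] [RightRigidCategory C] [IsAlgClosed K] in
lemma map_eq_zero_of {Z : C} {f : 𝟙_ C ⟶ Z} (hf : (R.H.map f).hom (one R) = 0) :
    R.H.map f = 0 := by
  ext x
  have h1 : x = ((Functor.OplaxMonoidal.η R.H).hom x : K) • one R := by
    have h := congrArg (fun f => f.hom x) (Functor.Monoidal.η_ε R.H)
    have h1 : (Functor.LaxMonoidal.ε R.H).hom ((Functor.OplaxMonoidal.η R.H).hom x) = x := h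
    have h2 : (Functor.LaxMonoidal.ε R.H).hom ((Functor.OplaxMonoidal.η R.H).hom x) =
        (Functor.LaxMonoidal.ε R.H).hom (((Functor.OplaxMonoidal.η R.H).hom x : K) • (1 : K)) := by
      rw [smul_eq_mul, mul_one]
    rw [map_smul] at h2
    exact h1.symm.trans h2
  rw [h1]
  change (R.H.map f).hom (_ • one R) = 0
  rw [map_smul, hf, smul_zero]

variable {T : C}

section Simple

variable (hR : IsReal Λ R) (hss : NoNumTriv T)

include hss in
lemma numIdeal_bot (n : ℕ) : numIdeal Λ (𝟙_ C) (tp T n) = ⊥ := by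
  rw [eq_bot_iff]
  intro f hf
  exact (Submodule.mem_bot Λ).2 (hss n f hf)

include hR hss in
lemma ev_inj (n : ℕ) : Function.Injective (ev hR (tp T n)) := by
  rw [← LinearMap.ker_eq_bot, LinearMap.ker_eq_bot']
  intro f hf
  exact hss n f (numTriv_of_map hR (map_eq_zero_of hf))

include hR hss in
lemma fin_hom (n : ℕ) : Module.Finite Λ (𝟙_ C ⟶ tp T n) := by
  have h1 := finite_num hR (𝟙_ C) (tp T n)
  exact Module.Finite.equiv (Submodule.quotEquivOfEqBot _ (numIdeal_bot hss n))

include hR hss in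
lemma finrank_hom (n : ℕ) : finrank Λ (𝟙_ C ⟶ tp T n) = numRank Λ (tp T n) := by
  have h6 := fin_hom hR hss n
  rw [numRank, (Submodule.quotEquivOfEqBot _ (numIdeal_bot hss n)).finrank_eq]

include hR hss in
lemma ncom_eq (n : ℕ) : ncom Λ T n = (numRank Λ (tp T n) : ℕ∞) := by
  have h6 := fin_hom hR hss n
  rw [ncom, dimE_eq, finrank_hom hR hss]

end Simple

lemma finite_of_dimE {V : Type w} [AddCommGroup V] [Module Λ V] (h : dimE Λ V ≠ ⊤) :
    Module.Finite Λ V := by
  by_contra h1
  exact h (dimE_top h1)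

/-- One step: the power of exponent `i + 1` contributes at least one half of the rank. -/
lemma step [ExactPairing T T] (h : IsPow Λ R T) {m n i k : ℕ} (x : R.H.obj (tp T m))
    (hf : Module.Finite Λ (gn Λ x (i + 1) (tp T n)))
    (hi : i < k) (hn : 128 * (k * m + 1) ^ 2 * bt R T ^ (2 * (k * m) + 6) ≤ n)
    (hx : pv R x (i + 1) ∉ gn Λ x i (tp (tp T m) (i + 1))) :
    2 * finrank Λ (gn Λ x i (tp T n)) + numRank Λ (tp T n) ≤
      2 * finrank Λ (gn Λ x (i + 1) (tp T n)) := by
  have := linear_of h.real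
  have hb := bt_pos h
  let S := gn Λ x (i + 1)
  have hf' : Module.Finite Λ (S (tp T n)) := hf
  let A : ∀ Z, Submodule Λ ((sub (resF Λ R) S (gn_stab x (i + 1))).obj Z) := fun Z =>
    (gn Λ x i Z).comap (S Z).subtype
  have hA : IsStab (sub (resF Λ R) S (gn_stab x (i + 1))) A := by
    intro Y Z f y hy
    exact gn_stab x i f hy
  have h1 : ¬ Subsingleton ((quoS _ A hA).obj (tp T ((i + 1) * m))) := by
    intro hs
    obtain ⟨e⟩ := Zol.exists_iso_mul T m (i + 1)
    apply hx
    have h2 : (R.H.map e.hom).hom (pv R x (i + 1)) ∈ S (tp T ((i + 1) * m)) :=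
      gn_map x (i + 1) e.hom (pv_mem_gn x le_rfl)
    have h3 : (Submodule.Quotient.mk (⟨_, h2⟩ : S (tp T ((i + 1) * m))) :
        S (tp T ((i + 1) * m)) ⧸ A (tp T ((i + 1) * m))) = 0 := @Subsingleton.elim _ hs _ _
    have h4 : (⟨_, h2⟩ : S (tp T ((i + 1) * m))) ∈ A (tp T ((i + 1) * m)) :=
      (Submodule.Quotient.mk_eq_zero _).1 h3
    have h5 : (R.H.map e.hom).hom (pv R x (i + 1)) ∈ gn Λ x i (tp T ((i + 1) * m)) := h4
    have h6 := gn_map x i e.inv h5
    have h7 : (R.H.map e.inv).hom ((R.H.map e.hom).hom (pv R x (i + 1))) = pv R x (i + 1) := by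
      have h8 : (R.H.map (e.hom ≫ e.inv)).hom (pv R x (i + 1)) = pv R x (i + 1) := by
        rw [Iso.hom_inv_id, CategoryTheory.Functor.map_id]
        rfl
      rw [Functor.map_comp] at h8
      exact h8
    rw [← h7]
    exact h6
  have hle : gn Λ x i (tp T n) ≤ S (tp T n) := gn_mono x (Nat.le_succ i) _
  have h9 : finrank Λ ((quoS _ A hA).obj (tp T n)) + finrank Λ (gn Λ x i (tp T n)) =
      finrank Λ (S (tp T n)) := by
    have h10 := Submodule.finrank_quotient_add_finrank (R := Λ) (M := S (tp T n))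
      ((gn Λ x i (tp T n)).comap (S (tp T n)).subtype)
    rw [(Submodule.comapSubtypeEquivOfLe hle).finrank_eq] at h10
    exact h10
  have h11 : numRank Λ (tp T n) ≤ 2 * finrank Λ ((quoS _ A hA).obj (tp T n)) := by
    by_contra hlt
    rw [not_le] at hlt
    refine h1 (explicit_criterion h (quoS _ A hA) (m := (i + 1) * m) (n := n) ?_ ?_ hlt)
    · refine le_trans ?_ hn
      have h12 : (i + 1) * m ≤ k * m := Nat.mul_le_mul_right m hi
      gcongr
    · exact inferInstanceAs (Module.Finite Λ (S (tp T n) ⧸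
        ((gn Λ x i (tp T n)).comap (S (tp T n)).subtype)))
  have h12 : finrank Λ (S (tp T n)) = finrank Λ (gn Λ x (i + 1) (tp T n)) := rfl
  omega

/-- **The effective law.** -/
theorem rate [ExactPairing T T] (h : IsPow Λ R T) (hss : NoNumTriv T)
    {S : ∀ Z, Submodule Λ ((resF Λ R).obj Z)} (hS : IsClasses R S) {m n k : ℕ}
    (hn : 128 * (k * m + 1) ^ 2 * bt R T ^ (2 * (k * m) + 6) ≤ n)
    (hlt : 2 * ncl S T n < ((k + 2 : ℕ) : ℕ∞) * ncom Λ T n) (x : R.H.obj (tp T m))
    (hx : x ∈ S (tp T m)) : ∃ i < k, pv R x (i + 1) ∈ gn Λ x i (tp (tp T m) (i + 1)) := by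
  have hR := h.real
  have h3 := fin_hom hR hss n
  have hfS : Module.Finite Λ (S (tp T n)) := by
    apply finite_of_dimE
    intro h1
    rw [ncl, h1] at hlt
    have h2 : (2 : ℕ∞) * ⊤ = ⊤ := by decide
    rw [h2] at hlt
    exact not_top_lt hlt
  have hfg : ∀ i, Module.Finite Λ (gn Λ x i (tp T n)) := fun i =>
    Module.Finite.of_injective _ (Submodule.inclusion_injective (gn_le hS hx i (tp T n)))
  by_contra hno
  push Not at hno
  have hc := finrank_hom hR hss n
  have key : ∀ i, i ≤ k → (i + 2) * numRank Λ (tp T n) ≤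
      2 * finrank Λ (gn Λ x i (tp T n)) := by
    intro i
    induction i with
    | zero =>
      intro _
      have h5 : LinearMap.range (ev hR (tp T n)) ≤ gn Λ x 0 (tp T n) := by
        rintro _ ⟨f, rfl⟩
        exact Submodule.subset_span ⟨0, le_rfl, f, rfl⟩
      have := hfg 0
      have h6 := Submodule.finrank_mono h5
      rw [LinearMap.finrank_range_of_inj (ev_inj hR hss n), hc] at h6
      omega
    | succ i ih =>
      intro hi
      have h5 := ih (by omega)
      have h6 := step h x (hfg (i + 1)) (show i < k from hi) hn (hno i hi)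
      nlinarith
  have h5 := key k le_rfl
  have h6 := Submodule.finrank_mono (gn_le hS hx k (tp T n))
  rw [ncl, dimE_eq, ncom_eq hR hss] at hlt
  have h7 : 2 * finrank Λ (S (tp T n)) < (k + 2) * numRank Λ (tp T n) := by exact_mod_cast hlt
  omega

/-- The number `n` is large compared with `k`, `m` and the dimension of `T`. -/
def Large (R : SuperRealisation C K) (T : C) (k m n : ℕ) : Prop :=
  128 * (k * m + 1) ^ 2 * bt R T ^ (2 * (k * m) + 6) ≤ n

theorem criterion [ExactPairing T T] (h : IsPow Λ R T) (hss : NoNumTriv T)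
    {S : ∀ Z, Submodule Λ ((resF Λ R).obj Z)} (hS : IsClasses R S) {k m n : ℕ}
    (hn : Large R T k m n) (hlt : 2 * ncl S T n < ((k + 2 : ℕ) : ℕ∞) * ncom Λ T n) :
    AllFinConj S T m ∧ (k = 1 → AllFromMor S T m) := by
  refine ⟨fun x hx => ?_, ?_⟩
  · obtain ⟨i, -, hi⟩ := rate h hss hS hn hlt x hx
    have h1 := finConj_of_gn h.real x hi
    exact ⟨h1, conjFixed_of h1⟩
  · rintro rfl x hx
    obtain ⟨i, hi', hi⟩ := rate h hss hS hn hlt x hx
    obtain rfl : i = 0 := by omega
    exact fromMor_of_gn h.real x hi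

end Pool.Agent.T2h11.Zah
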