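import Pool.Agent.T2h11.Zah.Rk
import Pool.Agent.N64.AF.S

/-!
# The dimension of the space of the natural transformations to a realisation
-/

set_option autoImplicit false

open CategoryTheory Limits MonoidalCategory Module Filter Topology
open Pool.Agent.Y112.SR Pool.Agent.Y112.KD Pool.Agent.N64.AF
open scoped ENNReal TensorProduct

namespace Pool.Agent.T2h11.Zah

universe u v w t

variable {C : Type u} [Category.{v} C] [Preadditive C] [MonoidalCategory C]
  [SymmetricCategory C]
  {Λ : Type t} [Field Λ]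
  {K' : Type w} [Field K']

/-- The natural transformations from `F` to a realisation, on the tensor powers of `T`. -/
def NT (F : C ⥤ ModuleCat.{w} Λ) (R' : SuperRealisation C K') (T : C) :
    Submodule K' (∀ n : ℕ, F.obj (tp T n) → R'.H.obj (tp T n)) where
  carrier := {t | (∀ n a b, t n (a + b) = t n a + t n b) ∧
    ∀ (a b : ℕ) (f : tp T a ⟶ tp T b) (v : F.obj (tp T a)),
      t b ((F.map f).hom v) = (R'.H.map f).hom (t a v)}
  zero_mem' := ⟨fun n a b => by simp, fun a b f v => by simp⟩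
  add_mem' := by
    rintro s t ⟨h1, h2⟩ ⟨h3, h4⟩
    refine ⟨fun n a b => ?_, fun a b f v => ?_⟩
    · simp only [Pi.add_apply]
      rw [h1, h3]
      abel
    · simp only [Pi.add_apply]
      rw [h2, h4, map_add]
  smul_mem' := by
    rintro c t ⟨h1, h2⟩
    refine ⟨fun n a b => ?_, fun a b f v => ?_⟩
    · simp only [Pi.smul_apply]
      rw [h1, smul_add]
    · simp only [Pi.smul_apply]
      rw [h2, map_smul]

variable {F : C ⥤ ModuleCat.{w} Λ} {R' : SuperRealisation C K'} {T : C}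

/-- The evaluation at a vector. -/
def evT (F : C ⥤ ModuleCat.{w} Λ) (R' : SuperRealisation C K') (T : C) (m : ℕ)
    (z : F.obj (tp T m)) : NT F R' T →ₗ[K'] R'.H.obj (tp T m) where
  toFun t := t.1 m z
  map_add' s t := rfl
  map_smul' c t := rfl

variable {S : ∀ Z, Submodule Λ (F.obj Z)}

/-- Natural transformations which vanish on a subfunctor. -/
noncomputable def qT (hS : IsStab F S) (t : ∀ n : ℕ, F.obj (tp T n) → R'.H.obj (tp T n)) :
    ∀ n : ℕ, (quoS F S hS).obj (tp T n) → R'.H.obj (tp T n) := fun n q =>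
  t n (Function.surjInv (Submodule.mkQ_surjective (S (tp T n))) q)

lemma qT_mk (hS : IsStab F S) {t : ∀ n : ℕ, F.obj (tp T n) → R'.H.obj (tp T n)}
    (ht : t ∈ NT F R' T) (h0 : ∀ n, ∀ v ∈ S (tp T n), t n v = 0) (n : ℕ) (v : F.obj (tp T n)) :
    qT hS t n (Submodule.Quotient.mk v) = t n v := by
  have h1 : Submodule.mkQ (S (tp T n))
      (Function.surjInv (Submodule.mkQ_surjective (S (tp T n))) (Submodule.Quotient.mk v)) =
      Submodule.Quotient.mk v := Function.surjInv_eq _ _
  set v' := Function.surjInv (Submodule.mkQ_surjective (S (tp T n))) (Submodule.Quotient.mk v)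
  have h2 : v' - v ∈ S (tp T n) := (Submodule.Quotient.eq _).1 h1
  have h3 := ht.1 n (v' - v) v
  rw [sub_add_cancel, h0 n _ h2, zero_add] at h3
  exact h3

lemma qT_mem (hS : IsStab F S) {t : ∀ n : ℕ, F.obj (tp T n) → R'.H.obj (tp T n)}
    (ht : t ∈ NT F R' T) (h0 : ∀ n, ∀ v ∈ S (tp T n), t n v = 0) :
    qT hS t ∈ NT (quoS F S hS) R' T := by
  refine ⟨fun n a b => ?_, fun a b f v => ?_⟩
  · obtain ⟨a, rfl⟩ := Submodule.mkQ_surjective (S (tp T n)) a
    obtain ⟨b, rfl⟩ := Submodule.mkQ_surjective (S (tp T n)) b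
    have h1 := qT_mk hS ht h0 n (a + b)
    rw [ht.1] at h1
    have h2 := qT_mk hS ht h0 n a
    have h3 := qT_mk hS ht h0 n b
    rw [← h2, ← h3] at h1
    exact h1
  · obtain ⟨v, rfl⟩ := Submodule.mkQ_surjective (S (tp T a)) v
    have h1 := qT_mk hS ht h0 b ((F.map f).hom v)
    have h2 := qT_mk hS ht h0 a v
    have h3 : ((quoS F S hS).map f).hom (Submodule.Quotient.mk v) =
      Submodule.Quotient.mk ((F.map f).hom v) := quoS_map_mk hS f v
    rw [ht.2, ← h2, ← h3] at h1
    exact h1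

/-- The restriction to the kernel of the evaluation. -/
noncomputable def kerT (hS : IsStab F S) (m : ℕ) (z : F.obj (tp T m))
    (hz : ∀ t ∈ NT F R' T, t m z = 0 → ∀ n, ∀ v ∈ S (tp T n), t n v = 0) :
    LinearMap.ker (evT F R' T m z) →ₗ[K'] NT (quoS F S hS) R' T where
  toFun t := ⟨qT hS t.1.1, qT_mem hS t.1.2 (hz _ t.1.2 (LinearMap.mem_ker.1 t.2))⟩
  map_add' s t := rfl
  map_smul' c t := rfl

lemma kerT_inj (hS : IsStab F S) (m : ℕ) (z : F.obj (tp T m))
    (hz : ∀ t ∈ NT F R' T, t m z = 0 → ∀ n, ∀ v ∈ S (tp T n), t n v = 0) :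
    Function.Injective (kerT (R' := R') hS m z hz) := by
  intro s t hst
  apply Subtype.ext
  apply Subtype.ext
  funext n v
  have h1 := qT_mk hS s.1.2 (hz _ s.1.2 (LinearMap.mem_ker.1 s.2)) n v
  have h2 := qT_mk hS t.1.2 (hz _ t.1.2 (LinearMap.mem_ker.1 t.2)) n v
  have h3 : qT hS s.1.1 = qT hS t.1.1 := congrArg Subtype.val hst
  rw [← h1, ← h2, h3]

/-- One step. -/
lemma rank_step (hS : IsStab F S) (m : ℕ) (z : F.obj (tp T m))
    (hz : ∀ t ∈ NT F R' T, t m z = 0 → ∀ n, ∀ v ∈ S (tp T n), t n v = 0)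
    (g : tp T m ⟶ tp T m) (hg : (F.map g).hom z = z) {r N : ℕ}
    (hr : finrank K' (LinearMap.range (R'.H.map g).hom) ≤ r)
    (hN : Module.rank K' (NT (quoS F S hS) R' T) ≤ N) :
    Module.rank K' (NT F R' T) ≤ (r + N : ℕ) := by
  have h1 := LinearMap.rank_range_add_rank_ker (evT F R' T m z)
  have h2 : LinearMap.range (evT F R' T m z) ≤ LinearMap.range (R'.H.map g).hom := by
    rintro _ ⟨t, rfl⟩
    refine ⟨t.1 m z, ?_⟩
    rw [← t.2.2, hg]
    rfl
  have h3 : Module.rank K' (LinearMap.range (evT F R' T m z)) ≤ r := by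
    refine (Submodule.rank_mono h2).trans ?_
    have := R'.finite (tp T m)
    rw [← Module.finrank_eq_rank]
    exact_mod_cast hr
  have h4 : Module.rank K' (LinearMap.ker (evT F R' T m z)) ≤ N :=
    (LinearMap.rank_le_of_injective _ (kerT_inj hS m z hz)).trans hN
  rw [← h1]
  push_cast
  exact add_le_add h3 h4

end Pool.Agent.T2h11.Zah
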