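import Pool.Agent.T2h11.Zah.Nt
import Pool.Agent.T2h11.Zah.Main
import Pool.Agent.N64.AF.K1

/-!
# The number of conjugates is at most the limit
-/

set_option autoImplicit false

open CategoryTheory Limits MonoidalCategory Module Filter Topology
open Pool.Agent.Y112.SR Pool.Agent.Y112.KD Pool.Agent.N64.AF
open scoped ENNReal TensorProduct

namespace Pool.Agent.T2h11.Zah

universe u v w t

variable {C : Type u} [Category.{v} C] [Preadditive C] [MonoidalCategory C]
  [MonoidalPreadditive C] [SymmetricCategory C] [RightRigidCategory C]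
  {Λ : Type t} [Field Λ] [CharZero Λ] [Linear Λ C] [MonoidalLinear Λ C]
  {K : Type w} [Field K] [IsAlgClosed K] [Algebra Λ K] {R : SuperRealisation C K}
  {K' : Type w} [Field K'] [CharZero K'] {R' : SuperRealisation C K'}

omit [IsAlgClosed K] in
/-- Numerically trivial morphisms between tensor powers are zero. -/
lemma faithful {T : C} [ExactPairing T T] (hR : IsReal Λ R) (hss : NoNumTriv T) (a : ℕ) :
    ∀ (b : ℕ) (f : tp T a ⟶ tp T b), NumTriv f → f = 0 := by
  induction a with
  | zero => exact hss
  | succ a ih =>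
    intro b f hf
    have h1 : Pool.Agent.N645.AFK1.cur Λ T (tp T a) (tp T b) f = 0 := by
      apply ih (b + 1)
      rw [Pool.Agent.N645.AFK1.cur_eq]
      have h2 := NumTriv.comp hR (hf.whiskerRight hR T)
        ((ρ_ (tp T a)).inv ≫ (_ ◁ η_ T T) ≫ (α_ _ _ _).inv) (𝟙 _)
      rw [Category.comp_id] at h2
      exact h2
    exact (LinearEquiv.map_eq_zero_iff _).1 h1

/-- The rank of a projector of a tensor power in a realisation of the same dimension. -/
lemma rk_eq {T : C} [ExactPairing T T] (h : IsPow Λ R T) (hss : NoNumTriv T)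
    (hdim : bt R' T = bt R T) {m : ℕ} {g : tp T m ⟶ tp T m} (hg : NumIdem g) {r : ℕ}
    (hr : IsRk R g r) : finrank K' (LinearMap.range (R'.H.map g).hom) ≤ r := by
  have hcp : R.CPlus (tp T m) := cplus_tp h.real h.cplus m
  have hf := fun f hf => faithful h.real hss m m f hf
  have hnum : ∀ f : tp T m ⟶ tp T m, R.H.map f = 0 → NumTriv f := fun f hf =>
    numTriv_of_map h.real hf
  have hgg : g ≫ g = g := sub_eq_zero.1 (hf _ hg)
  obtain ⟨r', hr', hle⟩ := exists_rk h.real hcp hg
  have hK : CharZero K := charZero_of_injective_algebraMap (algebraMap Λ K).injective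
  have hrr : r = r' := by
    have h1 : (r : K) = r' := hr.symm.trans hr'
    exact_mod_cast h1
  subst hrr
  have h1 : IsRk R (𝟙 (tp T m) - g) (bt R (tp T m) - r) := isRk_compl hr (by omega)
  have hgg' : (𝟙 (tp T m) - g) ≫ (𝟙 (tp T m) - g) = 𝟙 (tp T m) - g := by
    rw [Preadditive.sub_comp, Preadditive.comp_sub, Preadditive.comp_sub, hgg]
    simp
  have h2 := rk_le (R' := R') h.real hcp hf hnum hgg' h1
  have h3 : bt R' (tp T m) = bt R (tp T m) := by rw [bt_tp, bt_tp, hdim]
  have h4 : finrank K' (LinearMap.range (R'.H.map g).hom) +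
      finrank K' (LinearMap.range (R'.H.map (𝟙 (tp T m) - g)).hom) = bt R' (tp T m) := by
    have hfin := R'.finite (tp T m)
    have e1 : (R'.H.map g).hom * (R'.H.map g).hom = (R'.H.map g).hom := by
      have h7 := congrArg (fun f => (R'.H.map f).hom) hgg
      beta_reduce at h7
      rw [Functor.map_comp] at h7
      exact h7
    have e2 : (R'.H.map (𝟙 (tp T m) - g)).hom * (R'.H.map (𝟙 (tp T m) - g)).hom =
        (R'.H.map (𝟙 (tp T m) - g)).hom := by
      have h7 := congrArg (fun f => (R'.H.map f).hom) hgg'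
      beta_reduce at h7
      rw [Functor.map_comp] at h7
      exact h7
    have e3 := trace_idem _ e1
    have e4 := trace_idem _ e2
    have e5 : (R'.H.map g).hom + (R'.H.map (𝟙 (tp T m) - g)).hom = LinearMap.id := by
      rw [Functor.map_sub, CategoryTheory.Functor.map_id, ModuleCat.hom_sub, ModuleCat.hom_id]
      abel
    have e6 := congrArg (LinearMap.trace K' (R'.H.obj (tp T m))) e5
    rw [map_add, LinearMap.trace_id] at e6
    have e7 : ((finrank K' (LinearMap.range (R'.H.map g).hom) +
      finrank K' (LinearMap.range (R'.H.map (𝟙 (tp T m) - g)).hom) : ℕ) : K') =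
        ((bt R' (tp T m) : ℕ) : K') := by
      push_cast
      rw [← e3, ← e4]
      exact e6
    exact_mod_cast e7
  omega

/-- The dimension of the space of natural transformations is at most the limit. -/
theorem rank_NT {T : C} [ExactPairing T T] (h : IsPow Λ R T) (hss : NoNumTriv T)
    (hdim : bt R' T = bt R T) (N : ℕ) :
    ∀ (F : C ⥤ ModuleCat.{w} Λ) [F.Additive] [F.Linear Λ], IsFin Λ T F →
    Tendsto (fun n => (finrank Λ (F.obj (tp T n)) : ℝ) /
        cmpSeq (fun n => numRank Λ (tp T n)) (bt R T) n) atTop (𝓝 (N : ℝ)) →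
    Module.rank K' (NT F R' T) ≤ N := by
  induction N using Nat.strong_induction_on with
  | _ N ih =>
  intro F _ _ hfin hlim
  have hcp : ∀ n, R.CPlus (tp T n) := fun n => cplus_tp h.real h.cplus n
  have hc : ∀ n, (0 : ℝ) < cmpSeq (fun n => numRank Λ (tp T n)) (bt R T) n := fun n => by
    exact_mod_cast (numRank_tendsto h).1 n
  by_cases hall : ∀ n, Subsingleton (F.obj (tp T n))
  · -- the zero functor
    have h1 : Subsingleton (NT F R' T) := by
      refine ⟨fun s t => Subtype.ext (funext fun n => funext fun v => ?_)⟩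
      have h2 : ∀ t : NT F R' T, t.1 n v = 0 := by
        intro t
        have h3 := t.2.1 n 0 0
        rw [add_zero] at h3
        have h4 : t.1 n 0 = 0 := by simpa using h3
        rw [@Subsingleton.elim _ (hall n) v 0, h4]
      rw [h2, h2]
    rw [rank_subsingleton']
    exact zero_le
  · push Not at hall
    obtain ⟨m, hm⟩ := hall
    have hm' : ¬ Subsingleton (F.obj (tp T m)) := not_subsingleton_iff_nontrivial.2 hm
    have hfinm := hfin.fin m
    obtain ⟨g, z, hg, hgpos, hgz⟩ := exists_simple h.real (hcp m) F (hfin.nil m) hm'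
    obtain ⟨r, hr, -⟩ := exists_rk h.real (hcp m) hg
    have hrpos : 0 < r := by
      by_contra h0
      have h1 : r = 0 := by omega
      have h2 := nr_le_cmpSeq h hg hr m
      rw [h1, zero_mul] at h2
      omega
    have hgg : g ≫ g = g := sub_eq_zero.1 (faithful h.real hss m m _ hg)
    -- the subfunctors
    have hS := isStab_range F g z
    have hF2 := hfin.quoS hS
    -- dimensions
    have hdim' : ∀ n, finrank Λ (F.obj (tp T n)) =
        finrank Λ ((quoS F _ hS).obj (tp T n)) + nr Λ g (𝟙 (tp T n)) := by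
      intro n
      have := hfin.fin n
      have h1 := Submodule.finrank_quotient_add_finrank (LinearMap.range (thetaMap F g z (tp T n)))
      have h2 := finrank_map_of_ker (thetaMap F g z (tp T n)) (nuMap Λ g (tp T n)) (by
        intro c hc'
        rw [mem_ker_nuMap]
        exact hgz _ c hc')
      have h3 : finrank Λ (LinearMap.range (nuMap Λ g (tp T n))) = nr Λ g (𝟙 (tp T n)) := rfl
      have h4 : (LinearMap.ker (nuMap Λ g (tp T n))).map (thetaMap F g z (tp T n)) = ⊥ := by
        rw [eq_bot_iff]
        rintro _ ⟨c, hc', rfl⟩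
        have h5 : NumTriv (g ≫ c) := (mem_ker_nuMap g c).1 hc'
        rw [Submodule.mem_bot, thetaMap_apply, faithful h.real hss m n _ h5, F.map_zero]
        rfl
      rw [h3, h4, finrank_bot, zero_add] at h2
      change _ = finrank Λ (F.obj (tp T n) ⧸ LinearMap.range (thetaMap F g z (tp T n))) + _
      omega
    -- limits
    have hlimg : Tendsto (fun n => (nr Λ g (𝟙 (tp T n)) : ℝ) /
        cmpSeq (fun n => numRank Λ (tp T n)) (bt R T) n) atTop (𝓝 (r : ℝ)) := by
      rw [Metric.tendsto_atTop]
      intro ε hε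
      obtain ⟨n₀, hn₀⟩ := eventually_atTop.1 (eventually_nr h hg hr (half_pos hε))
      refine ⟨n₀, fun n hn => ?_⟩
      have h1 := hn₀ n hn
      rw [← le_div_iff₀ (hc n)] at h1
      have h2 : (nr Λ g (𝟙 (tp T n)) : ℝ) ≤
          r * cmpSeq (fun n => numRank Λ (tp T n)) (bt R T) n := by
        exact_mod_cast nr_le_cmpSeq h hg hr n
      rw [← div_le_iff₀ (hc n)] at h2
      rw [Real.dist_eq, abs_lt]
      constructor <;> linarith
    have hlim2 : Tendsto (fun n => (finrank Λ ((quoS F _ hS).obj (tp T n)) : ℝ) /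
        cmpSeq (fun n => numRank Λ (tp T n)) (bt R T) n) atTop (𝓝 ((N : ℝ) - r)) := by
      refine (hlim.sub hlimg).congr fun n => ?_
      rw [← sub_div, hdim' n]
      push_cast
      ring
    have hrN : r ≤ N := by
      have h1 : (0 : ℝ) ≤ (N : ℝ) - r := ge_of_tendsto' hlim2 fun n => by
        have := hc n
        positivity
      have h2 : (r : ℝ) ≤ N := by linarith
      exact_mod_cast h2
    have hlim3 : Tendsto (fun n => (finrank Λ ((quoS F _ hS).obj (tp T n)) : ℝ) /
        cmpSeq (fun n => numRank Λ (tp T n)) (bt R T) n) atTop (𝓝 ((N - r : ℕ) : ℝ)) := by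
      rw [Nat.cast_sub hrN]
      exact hlim2
    have hind := ih (N - r) (by omega) (quoS F _ hS) hF2 hlim3
    have hgz' : (F.map g).hom ((F.map g).hom z) = (F.map g).hom z := by
      have h1 := congrArg (fun f => (F.map f).hom z) hgg
      beta_reduce at h1
      rw [F.map_comp] at h1
      exact h1
    have hfinal := rank_step (R' := R') hS m ((F.map g).hom z) (fun t ht h0 n v hv => by
      obtain ⟨c, rfl⟩ := hv
      rw [thetaMap_apply, F.map_comp]
      have h1 := ht.2 m n c ((F.map g).hom z)
      rw [h0, map_zero] at h1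
      exact h1) g hgz' (rk_eq h hss hdim hg hr) hind
    have h9 : r + (N - r) = N := by omega
    rwa [h9] at hfinal

end Pool.Agent.T2h11.Zah
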