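import Pool.Agent.T2h11.Zah.Defs
import Pool.Agent.N64.AF.V2
import Pool.Agent.T2h11.Zol.Orb

/-!
# Finite sets of conjugates
-/

set_option autoImplicit false

open CategoryTheory Limits MonoidalCategory Module Filter Topology
open Pool.Agent.Y112.SR Pool.Agent.Y112.KD Pool.Agent.N64.AF
open scoped ENNReal TensorProduct

namespace Pool.Agent.T2h11.Zah

universe u v w t y x

section Pow

variable {C : Type u} [Category.{v} C] [Preadditive C] [MonoidalCategory C]
  [SymmetricCategory C] {K : Type w} [Field K] (R : SuperRealisation C K)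

/-- The tensor powers of a vector. -/
def pv {Y : C} (x : R.H.obj Y) : ∀ j : ℕ, R.H.obj (tp Y j)
  | 0 => one R
  | j + 1 => mul R (pv x j) x

/-- The tensor powers of a functional. -/
noncomputable def pf {Y : C} (f : R.H.obj Y →ₗ[K] K) : ∀ j : ℕ, R.H.obj (tp Y j) →ₗ[K] K
  | 0 => (Functor.OplaxMonoidal.η R.H).hom
  | j + 1 => LinearMap.mul' K K ∘ₗ TensorProduct.map (pf f j) f ∘ₗ
      (Functor.OplaxMonoidal.δ R.H (tp Y j) Y).hom

lemma eta_one : (Functor.OplaxMonoidal.η R.H).hom (one R) = (1 : K) := by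
  have h := congrArg (fun f => f.hom (1 : K)) (Functor.Monoidal.ε_η R.H)
  exact h

lemma delta_mul {Y Z : C} (x : R.H.obj Y) (y : R.H.obj Z) :
    (Functor.OplaxMonoidal.δ R.H Y Z).hom (mul R x y) = x ⊗ₜ[K] y := by
  have h := congrArg (fun f => f.hom (x ⊗ₜ[K] y)) (Functor.Monoidal.μ_δ R.H Y Z)
  exact h

lemma pf_pv {Y : C} (f : R.H.obj Y →ₗ[K] K) (x : R.H.obj Y) (j : ℕ) :
    pf R f j (pv R x j) = f x ^ j := by
  induction j with
  | zero => exact (eta_one R).trans (pow_zero _).symm
  | succ j ih =>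
    change LinearMap.mul' K K (TensorProduct.map (pf R f j) f
      ((Functor.OplaxMonoidal.δ R.H (tp Y j) Y).hom (mul R (pv R x j) x))) = _
    rw [delta_mul, TensorProduct.map_tmul, LinearMap.mul'_apply, ih, pow_succ]

variable {R} {K' : Type w} [Field K'] {R' : SuperRealisation C K'}

lemma conj_pv (s : Conj R R') {Y : C} (x : R.H.obj Y) (j : ℕ) :
    s.map (tp Y j) (pv R x j) = pv R' (s.map Y x) j := by
  induction j with
  | zero => exact s.map_one
  | succ j ih =>
    change s.map (tp Y j ⊗ Y) (mul R (pv R x j) x) = _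
    rw [s.map_mul, ih]
    rfl

/-- The composition of conjugations. -/
def Conj.comp {K'' : Type w} [Field K''] {R'' : SuperRealisation C K''} (s : Conj R' R'')
    (r : Conj R R') : Conj R R'' where
  map Y x := s.map Y (r.map Y x)
  map_add Y x y := by rw [r.map_add, s.map_add]
  natural f x := by
    rw [r.natural, s.natural]
  map_mul Y Z x y := by
    rw [r.map_mul, s.map_mul]
  map_one := by
    rw [r.map_one, s.map_one]

/-- The set of conjugates of a vector is finite if all its powers are combinations of finitely many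
vectors. -/
theorem finConj_of {Y : C} (x : R.H.obj Y) {l : ℕ} (U : Fin l → C) (z : ∀ k, R.H.obj (U k))
    (hz : ∀ j : ℕ, ∃ c : ∀ k, (U k ⟶ tp Y j), ∑ k, (R.H.map (c k)).hom (z k) = pv R x j) :
    FinConj R x := by
  classical
  intro K' _ _ R'
  have hfin : ∀ k, Module.Finite K' (R'.H.obj (U k)) := fun k => R'.finite (U k)
  by_contra hinf
  -- many conjugates
  set D := finrank K' (∀ k, R'.H.obj (U k)) + 1 with hD
  have hinf' : {y | ∃ s : Conj R R', s.map Y x = y}.Infinite := hinf
  obtain ⟨u, hu⟩ : ∃ u : Fin D → R'.H.obj Y, Function.Injective u ∧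
      ∀ i, ∃ s : Conj R R', s.map Y x = u i := by
    let em := hinf'.natEmbedding
    refine ⟨fun i => (em i : R'.H.obj Y), ?_, fun i => (em i).2⟩
    intro i j hij
    exact Fin.ext (em.injective (Subtype.ext hij))
  obtain ⟨hu, hu'⟩ := hu
  choose s hs using hu'
  obtain ⟨f, hf⟩ := Zol.exists_sep (K := K') u hu
  choose c hc using hz
  -- the linear map
  let L : (∀ k, R'.H.obj (U k)) →ₗ[K'] (Fin D → K') := LinearMap.pi fun j : Fin D =>
    pf R' f (j : ℕ) ∘ₗ ∑ k : Fin l, (R'.H.map (c j k)).hom ∘ₗ LinearMap.proj k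
  have hL : ∀ (r : Conj R R') (j : Fin D), L (fun k => r.map (U k) (z k)) j =
      f (r.map Y x) ^ (j : ℕ) := by
    intro r j
    change pf R' f (j : ℕ) ((∑ k : Fin l, (R'.H.map (c j k)).hom ∘ₗ
      (LinearMap.proj k : (∀ k, R'.H.obj (U k)) →ₗ[K'] R'.H.obj (U k)))
        (fun k => r.map (U k) (z k))) = _
    rw [← pf_pv R' f (r.map Y x) j, ← conj_pv, ← hc, LinearMap.sum_apply]
    have hsum : ∀ y : Fin l → R.H.obj (tp Y (j : ℕ)), r.map (tp Y (j : ℕ)) (∑ k, y k) =
        ∑ k, r.map (tp Y (j : ℕ)) (y k) := fun y => map_sum (r.add (tp Y (j : ℕ))) y Finset.univ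
    rw [hsum]
    congr 1
    refine Finset.sum_congr rfl fun k _ => ?_
    rw [r.natural]
    rfl
  have hind : LinearIndependent K'
      (fun i : Fin D => (fun k => (s i).map (U k) (z k) : ∀ k, R'.H.obj (U k))) :=
    Zol.indep_of_vandermonde L (fun i => f (u i)) hf _ fun i j => by rw [hL, hs]
  have h4 : Fintype.card (Fin D) ≤ finrank K' (∀ k, R'.H.obj (U k)) :=
    hind.fintype_card_le_finrank
  rw [Fintype.card_fin, hD] at h4
  exact Nat.not_succ_le_self _ h4

/-- The conjugates of a vector with finitely many conjugates are fixed by connected groups. -/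
theorem conjFixed_of {Y : C} {x : R.H.obj Y} (hx : FinConj R x) : ConjFixed R x := by
  intro K' _ _ R' G _ a ha s
  refine ha _ ((hx K' R').subset ?_)
  rintro _ ⟨g, rfl⟩
  exact ⟨(a.act g).comp s, rfl⟩

end Pow

section Main

variable {C : Type u} [Category.{v} C] [Preadditive C] [MonoidalCategory C]
  [SymmetricCategory C] {Λ : Type t} [Field Λ] [Linear Λ C]
  {K : Type w} [Field K] [Algebra Λ K] {R : SuperRealisation C K}

lemma linear_of (hR : IsReal Λ R) : (resF Λ R).Linear Λ where
  map_smul {Y Z} f c := by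
    ext x
    change (R.H.map (c • f)).hom x = algebraMap Λ K c • (R.H.map f).hom x
    rw [hR.lin]
    rfl

variable {S : ∀ Z, Submodule Λ ((resF Λ R).obj Z)}

lemma IsClasses.stab (hS : IsClasses R S) : IsStab (resF Λ R) S := fun _ _ f x hx => hS.map f x hx

lemma pv_mem (hS : IsClasses R S) {Y : C} {x : R.H.obj Y} (hx : x ∈ S Y) (j : ℕ) :
    pv R x j ∈ S (tp Y j) := by
  induction j with
  | zero => exact hS.one
  | succ j ih => exact hS.mul _ _ ih hx

end Main

end Pool.Agent.T2h11.Zah
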