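import Pool.Agent.T2h11.Zah.Orb
import Pool.Agent.T2h11.Zol.Rate
import Pool.Agent.N64.AF.E5

/-!
# The effective form of the law
-/

set_option autoImplicit false

open CategoryTheory Limits MonoidalCategory Module Filter Topology
open Pool.Agent.Y112.SR Pool.Agent.Y112.KD Pool.Agent.N64.AF
open scoped ENNReal TensorProduct

namespace Pool.Agent.T2h11.Zah

universe u v w t y x

section Gen

variable {C : Type u} [Category.{v} C] [Preadditive C] [MonoidalCategory C]
  [SymmetricCategory C] {Λ : Type t} [Field Λ]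
  {K : Type w} [Field K] [Algebra Λ K] {R : SuperRealisation C K}

variable (Λ) in
/-- The subspaces generated by the powers of `x` of exponent at most `i`. -/
noncomputable def gn {Y : C} (x : R.H.obj Y) (i : ℕ) (Z : C) : Submodule Λ ((resF Λ R).obj Z) :=
  Submodule.span Λ {y : R.H.obj Z | ∃ (j : ℕ) (_ : j ≤ i) (c : tp Y j ⟶ Z),
    (R.H.map c).hom (pv R x j) = y}

lemma gn_mono {Y : C} (x : R.H.obj Y) {i j : ℕ} (h : i ≤ j) (Z : C) :
    gn Λ x i Z ≤ gn Λ x j Z := by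
  refine Submodule.span_mono ?_
  rintro _ ⟨k, hk, c, rfl⟩
  exact ⟨k, hk.trans h, c, rfl⟩

lemma gn_stab {Y : C} (x : R.H.obj Y) (i : ℕ) : IsStab (resF Λ R) (gn Λ x i) := by
  intro Z Z' f
  rw [gn, Submodule.span_le]
  rintro _ ⟨j, hj, c, rfl⟩
  refine Submodule.subset_span ⟨j, hj, c ≫ f, ?_⟩
  rw [Functor.map_comp]
  rfl

lemma gn_map {Y : C} (x : R.H.obj Y) (i : ℕ) {Z Z' : C} (f : Z ⟶ Z') {y : R.H.obj Z}
    (hy : y ∈ gn Λ x i Z) : (R.H.map f).hom y ∈ gn Λ x i Z' := gn_stab x i f hy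

lemma pv_mem_gn {Y : C} (x : R.H.obj Y) {i j : ℕ} (h : j ≤ i) :
    pv R x j ∈ gn Λ x i (tp Y j) := by
  refine Submodule.subset_span ⟨j, h, 𝟙 _, ?_⟩
  rw [CategoryTheory.Functor.map_id]
  rfl

lemma gn_le [Linear Λ C] {S : ∀ Z, Submodule Λ ((resF Λ R).obj Z)} (hS : IsClasses R S) {Y : C}
    {x : R.H.obj Y} (hx : x ∈ S Y) (i : ℕ) (Z : C) : gn Λ x i Z ≤ S Z := by
  rw [gn, Submodule.span_le]
  rintro _ ⟨j, -, c, rfl⟩
  exact hS.map c _ (pv_mem hS hx j)

/-- Multiplication by `x` from the right. -/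
noncomputable def mulR (Λ : Type t) [Field Λ] [Algebra Λ K] {Y : C} (x : R.H.obj Y) (Z : C) :
    (resF Λ R).obj Z →ₗ[Λ] (resF Λ R).obj (Z ⊗ Y) where
  toFun y := mul R (show R.H.obj Z from y) x
  map_add' a b := by
    change (Functor.LaxMonoidal.μ R.H Z Y).hom
      (((show R.H.obj Z from a) + (show R.H.obj Z from b)) ⊗ₜ[K] x) = _
    rw [TensorProduct.add_tmul, map_add]
    rfl
  map_smul' c a := by
    change (Functor.LaxMonoidal.μ R.H Z Y).hom
      ((algebraMap Λ K c • (show R.H.obj Z from a)) ⊗ₜ[K] x) = _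
    rw [← TensorProduct.smul_tmul', map_smul]
    rfl

lemma mul_map_left {Y Z Z' : C} (c : Z ⟶ Z') (y : R.H.obj Z) (x : R.H.obj Y) :
    mul R ((R.H.map c).hom y) x = (R.H.map (c ▷ Y)).hom (mul R y x) := by
  have h2 := congrArg (fun f => f.hom (y ⊗ₜ[K] x)) (Functor.LaxMonoidal.μ_natural_left R.H c Y)
  exact h2

/-- If the power of exponent `i + 1` is generated by the smaller ones, so are all powers. -/
lemma pv_mem_of {Y : C} (x : R.H.obj Y) {i : ℕ}
    (h : pv R x (i + 1) ∈ gn Λ x i (tp Y (i + 1))) (j : ℕ) : pv R x j ∈ gn Λ x i (tp Y j) := by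
  induction j with
  | zero => exact pv_mem_gn x (Nat.zero_le i)
  | succ j ih =>
    have key : gn Λ x i (tp Y j) ≤ (gn Λ x i (tp Y (j + 1))).comap (mulR Λ x (tp Y j)) := by
      rw [gn, Submodule.span_le]
      rintro _ ⟨k, hk, c, rfl⟩
      change mul R ((R.H.map c).hom (pv R x k)) x ∈ gn Λ x i (tp Y j ⊗ Y)
      rw [mul_map_left]
      rcases Nat.lt_or_ge k i with h2 | h2
      · exact gn_map x i (c ▷ Y) (pv_mem_gn (Λ := Λ) x (j := k + 1) h2)
      · have h3 : k = i := le_antisymm hk h2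
        subst h3
        exact gn_map x k (c ▷ Y) h
    exact key ih

end Gen

section Comb

variable {C : Type u} [Category.{v} C] [Preadditive C] [MonoidalCategory C]
  [SymmetricCategory C] {Λ : Type t} [Field Λ] [Linear Λ C]
  {K : Type w} [Field K] [Algebra Λ K] {R : SuperRealisation C K}

lemma exists_comb_gn (hR : IsReal Λ R) {Y : C} (x : R.H.obj Y) (i : ℕ) (Z : C) (y : R.H.obj Z)
    (hy : y ∈ gn Λ x i Z) : ∃ c : ∀ k : Fin (i + 1), (tp Y (k : ℕ) ⟶ Z),
      ∑ k : Fin (i + 1), (R.H.map (c k)).hom (pv R x (k : ℕ)) = y := by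
  classical
  rw [gn] at hy
  induction hy using Submodule.span_induction with
  | mem y h =>
    obtain ⟨j, hj, c, rfl⟩ := h
    refine ⟨fun k => if h : j = (k : ℕ) then eqToHom (by rw [h]) ≫ c else 0, ?_⟩
    rw [Finset.sum_eq_single (⟨j, Nat.lt_succ_of_le hj⟩ : Fin (i + 1))]
    · simp
    · intro k _ hk
      have h1 : j ≠ (k : ℕ) := fun h => hk (Fin.ext h.symm)
      beta_reduce
      rw [dif_neg h1, R.H.map_zero]
      rfl
    · intro h
      exact absurd (Finset.mem_univ _) h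
  | zero => exact ⟨fun _ => 0, Finset.sum_eq_zero fun k _ => by rw [R.H.map_zero]; rfl⟩
  | add a b _ _ ha hb =>
    obtain ⟨c, hc⟩ := ha
    obtain ⟨d, hd⟩ := hb
    refine ⟨fun k => c k + d k, ?_⟩
    have h1 : ∑ k : Fin (i + 1), (R.H.map (c k)).hom (pv R x (k : ℕ)) +
        ∑ k : Fin (i + 1), (R.H.map (d k)).hom (pv R x (k : ℕ)) = a + b := by rw [hc, hd]
    have h2 : ∑ k : Fin (i + 1), (R.H.map (c k + d k)).hom (pv R x (k : ℕ)) =
        ∑ k : Fin (i + 1), (R.H.map (c k)).hom (pv R x (k : ℕ)) +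
        ∑ k : Fin (i + 1), (R.H.map (d k)).hom (pv R x (k : ℕ)) := by
      rw [← Finset.sum_add_distrib]
      refine Finset.sum_congr rfl fun k _ => ?_
      rw [R.H.map_add]
      rfl
    exact h2.trans h1
  | smul r a _ ha =>
    obtain ⟨c, hc⟩ := ha
    refine ⟨fun k => r • c k, ?_⟩
    have h1 : algebraMap Λ K r • ∑ k : Fin (i + 1), (R.H.map (c k)).hom (pv R x (k : ℕ)) =
        algebraMap Λ K r • (show R.H.obj Z from a) := by rw [hc]
    have h2 : ∑ k : Fin (i + 1), (R.H.map (r • c k)).hom (pv R x (k : ℕ)) =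
        algebraMap Λ K r • ∑ k : Fin (i + 1), (R.H.map (c k)).hom (pv R x (k : ℕ)) := by
      rw [Finset.smul_sum]
      refine Finset.sum_congr rfl fun k _ => ?_
      rw [hR.lin]
      rfl
    exact h2.trans h1

/-- There are finitely many conjugates if some power is generated by the smaller ones. -/
lemma finConj_of_gn (hR : IsReal Λ R) {Y : C} (x : R.H.obj Y) {i : ℕ}
    (h : pv R x (i + 1) ∈ gn Λ x i (tp Y (i + 1))) : FinConj R x :=
  finConj_of x (fun k : Fin (i + 1) => tp Y (k : ℕ)) (fun k => pv R x (k : ℕ)) fun j =>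
    exists_comb_gn hR x i _ _ (pv_mem_of x h j)

/-- The case of the first power. -/
lemma fromMor_of_gn (hR : IsReal Λ R) {Y : C} (x : R.H.obj Y)
    (h : pv R x 1 ∈ gn Λ x 0 (tp Y 1)) : FromMor R x := by
  have h1 : (R.H.map (λ_ Y).hom).hom (mul R (one R) x) = x := by
    have h2 := congrArg (fun f => f.hom ((1 : K) ⊗ₜ[K] x))
      (Functor.LaxMonoidal.left_unitality R.H Y)
    have h3 : (λ_ (R.H.obj Y)).hom.hom ((1 : K) ⊗ₜ[K] x) = x := by
      change (1 : K) • x = x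
      rw [one_smul]
    exact h2.symm.trans h3
  obtain ⟨c, hc⟩ := exists_comb_gn hR x 0 _ _ (gn_map x 0 (λ_ Y).hom h)
  refine ⟨c 0, ?_⟩
  rw [Fin.sum_univ_one] at hc
  exact hc.trans h1

end Comb

end Pool.Agent.T2h11.Zah
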