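import Pool.Agent.T2h11.Zah.Rate

/-!
# The rank of a projector in two realisations
-/

set_option autoImplicit false

open CategoryTheory Limits MonoidalCategory Module Filter Topology
open Pool.Agent.Y112.SR Pool.Agent.Y112.KD Pool.Agent.N64.AF
open Pool.Agent.Y116.MT (tr)
open scoped ENNReal TensorProduct

namespace Pool.Agent.T2h11.Zah

universe u v w t

section LA

variable {K : Type w} [Field K] [CharZero K] {V : Type w} [AddCommGroup V] [Module K V]
  [Module.Finite K V]

/-- The trace of an idempotent. -/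
lemma trace_idem (E : Module.End K V) (hE : E * E = E) :
    LinearMap.trace K V E = (finrank K (LinearMap.range E) : K) :=
  (LinearMap.IsIdempotentElem.isProj_range E hE).trace

/-- The trace of an involution on the image of a projector is at most the rank. -/
lemma le_rank_of_trace (E B : Module.End K V) (hE : E * E = E) (hB : B * B = 1)
    (hEB : E * B = B * E) (r : ℕ) (hr : LinearMap.trace K V (E * B) = r) :
    r ≤ finrank K (LinearMap.range E) := by
  have h2 : (2 : K) ≠ 0 := two_ne_zero
  set P : Module.End K V := (2⁻¹ : K) • (E + E * B) with hP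
  set Q : Module.End K V := (2⁻¹ : K) • (E - E * B) with hQ
  have e1 : E * B * E = E * B := by rw [mul_assoc, ← hEB, ← mul_assoc, hE]
  have e2 : E * (E * B) = E * B := by rw [← mul_assoc, hE]
  have e3 : E * B * (E * B) = E := by
    rw [← mul_assoc, e1, mul_assoc, hB, mul_one]
  have h4 : (2⁻¹ : K) * 2⁻¹ * 2 = 2⁻¹ := by
    rw [mul_assoc, inv_mul_cancel₀ h2, mul_one]
  have hPP : P * P = P := by
    rw [hP, smul_mul_smul_comm, add_mul, mul_add, mul_add, hE, e1, e2, e3]
    have : E + E * B + (E * B + E) = (2 : K) • (E + E * B) := by rw [two_smul]; abel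
    rw [this, smul_smul, h4]
  have hQQ : Q * Q = Q := by
    rw [hQ, smul_mul_smul_comm, sub_mul, mul_sub, mul_sub, hE, e1, e2, e3]
    have : E - E * B - (E * B - E) = (2 : K) • (E - E * B) := by rw [two_smul]; abel
    rw [this, smul_smul, h4]
  have hPQ : P + Q = E := by
    rw [hP, hQ, ← smul_add]
    have : E + E * B + (E - E * B) = (2 : K) • E := by rw [two_smul]; abel
    rw [this, smul_smul, inv_mul_cancel₀ h2, one_smul]
  have hPQ' : P - Q = E * B := by
    rw [hP, hQ, ← smul_sub]
    have : E + E * B - (E - E * B) = (2 : K) • (E * B) := by rw [two_smul]; abel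
    rw [this, smul_smul, inv_mul_cancel₀ h2, one_smul]
  have h5 := congrArg (LinearMap.trace K V) hPQ
  have h6 := congrArg (LinearMap.trace K V) hPQ'
  rw [map_add, trace_idem P hPP, trace_idem Q hQQ, trace_idem E hE] at h5
  rw [map_sub, trace_idem P hPP, trace_idem Q hQQ, hr] at h6
  have h7 : finrank K (LinearMap.range P) + finrank K (LinearMap.range Q) =
      finrank K (LinearMap.range E) := by exact_mod_cast h5
  have h8 : finrank K (LinearMap.range P) = r + finrank K (LinearMap.range Q) := by
    have h9 : (finrank K (LinearMap.range P) : K) = r + finrank K (LinearMap.range Q) := by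
      rw [← h6]; ring
    exact_mod_cast h9
  omega

end LA

section

variable {C : Type u} [Category.{v} C] [Preadditive C] [MonoidalCategory C]
  [MonoidalPreadditive C] [SymmetricCategory C] [RightRigidCategory C]
  {Λ : Type t} [Field Λ] [CharZero Λ] [Linear Λ C] [MonoidalLinear Λ C]
  {K : Type w} [Field K] [Algebra Λ K] {R : SuperRealisation C K}
  {K' : Type w} [Field K'] [CharZero K'] {R' : SuperRealisation C K'}

/-- The rank of a projector in another realisation is not smaller. -/
lemma rk_le (hR : IsReal Λ R) {U : C} (hU : R.CPlus U)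
    (hfaith : ∀ f : U ⟶ U, NumTriv f → f = 0) (hnum : ∀ f : U ⟶ U, R.H.map f = 0 → NumTriv f)
    {g : U ⟶ U} (hg : g ≫ g = g) {r : ℕ} (hr : IsRk R g r) :
    r ≤ finrank K' (LinearMap.range (R'.H.map g).hom) := by
  obtain ⟨w, hw⟩ := P1aux.of_cplus hU
  have hK : CharZero K := charZero_of_injective_algebraMap (algebraMap Λ K).injective
  -- `w` is an involution and commutes with `g`
  have hww : w ≫ w = 𝟙 U := by
    have h1 : R.H.map (w ≫ w - 𝟙 U) = 0 := by
      rw [Functor.map_sub, Functor.map_comp, hw, R.par_sq, CategoryTheory.Functor.map_id, sub_self]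
    exact sub_eq_zero.1 (hfaith _ (hnum _ h1))
  have hwg : g ≫ w = w ≫ g := by
    have h1 : R.H.map (g ≫ w - w ≫ g) = 0 := by
      rw [Functor.map_sub, Functor.map_comp, Functor.map_comp, hw, R.par_natural, sub_self]
    exact sub_eq_zero.1 (hfaith _ (hnum _ h1))
  -- the trace of `g ≫ w`
  have h2 : tr (g ≫ w) = (r : Λ) • 𝟙 (𝟙_ C) := by
    obtain ⟨q, hq⟩ := A1aux.exq hR (g ≫ w)
    have h3 := A1aux.st_eq hR (g ≫ w) q hq
    have h4 : A1aux.st R (g ≫ w) = (r : K) := by
      rw [A1aux.st, Functor.map_comp, hw, Category.assoc, R.par_sq, Category.comp_id]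
      exact hr
    rw [h4, ← map_natCast (algebraMap Λ K)] at h3
    rw [hq, (algebraMap Λ K).injective h3]
  have h3 : R'.H.map (tr (g ≫ w)) = (r : K') • 𝟙 _ := by
    rw [h2, Nat.cast_smul_eq_nsmul, Functor.map_nsmul, CategoryTheory.Functor.map_id,
      Nat.cast_smul_eq_nsmul]
  have h5 := Pool.Agent.N210.NK.real_tr R' two_ne_zero (g ≫ w)
  have h6 : A1aux.st R' (g ≫ w) = (r : K') := by
    refine A1aux.smul_one_inj ?_
    rw [A1aux.st, ← h5, h3, Linear.smul_comp, Linear.comp_smul, Category.id_comp]
    congr 1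
    exact Functor.Monoidal.ε_η R'.H
  -- the linear algebra
  refine le_rank_of_trace (K := K') (R'.H.map g).hom
    ((R'.par U).hom ∘ₗ (R'.H.map w).hom) ?_ ?_ ?_ r ?_
  · have h7 := congrArg (fun f => (R'.H.map f).hom) hg
    beta_reduce at h7
    rw [Functor.map_comp] at h7
    exact h7
  · have h7 : (R'.H.map w ≫ R'.par U) ≫ (R'.H.map w ≫ R'.par U) = 𝟙 _ := by
      rw [Category.assoc, ← Category.assoc (R'.par U), ← R'.par_natural, Category.assoc,
        R'.par_sq, Category.comp_id, ← Functor.map_comp, hww, CategoryTheory.Functor.map_id]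
    exact congrArg (fun f => f.hom) h7
  · have h7 : (R'.H.map w ≫ R'.par U) ≫ R'.H.map g = R'.H.map g ≫ (R'.H.map w ≫ R'.par U) := by
      rw [Category.assoc, ← R'.par_natural, ← Category.assoc, ← Functor.map_comp, ← hwg,
        Functor.map_comp, Category.assoc]
    exact congrArg (fun f => f.hom) h7
  · have h7 : (R'.H.map w ≫ R'.par U) ≫ R'.H.map g = R'.H.map (g ≫ w) ≫ R'.par U := by
      rw [Category.assoc, ← R'.par_natural, ← Category.assoc, ← Functor.map_comp, ← hwg]
    have h8 : (R'.H.map g).hom * ((R'.par U).hom ∘ₗ (R'.H.map w).hom) =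
        (R'.H.map (g ≫ w) ≫ R'.par U).hom := congrArg (fun f => f.hom) h7
    rw [h8]
    exact h6

end

end Pool.Agent.T2h11.Zah
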